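import Mathlib

set_option autoImplicit false

namespace Pool.Agent.Results.MP_5f9057_an.Q2Yes

open Polynomial Finset

/-- only real zeros (the zero polynomial is admitted, as usual for multiplier sequences) -/
def RealZeros (p : ℝ[X]) : Prop := p = 0 ∨ ∀ z : ℂ, aeval z p = 0 → z.im = 0

/-- the set of `Q`-multiplier sequences -/
def MS (Q : ℕ → ℝ[X]) : Set (ℕ → ℝ) :=
  {γ | ∀ (n : ℕ) (a : ℕ → ℝ), RealZeros (∑ k ∈ range (n + 1), C (a k) * Q k) →
    RealZeros (∑ k ∈ range (n + 1), C (a k * γ k) * Q k)}

/-- the simple set `P_j` -/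
noncomputable def P (j k : ℕ) : ℝ[X] := if k ≤ j then ∑ i ∈ range (k + 1), X ^ i else X ^ k

lemma rz_mono (c : ℝ) (m : ℕ) : RealZeros (C c * X ^ m) := by
  by_cases hc : c = 0
  · left; simp [hc]
  · right
    intro z hz
    simp only [map_mul, aeval_C, map_pow, aeval_X, mul_eq_zero] at hz
    rcases hz with h | h
    · exact absurd (by simpa using h) hc
    · rw [pow_eq_zero_iff'.1 h |>.1]; simp

lemma not_rz (m : ℕ) (hm : 2 ≤ m) : ¬ RealZeros (∑ i ∈ range (m + 1), X ^ i) := by
  have hz := Complex.isPrimitiveRoot_exp (m + 1) (by omega)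
  rintro (h | h)
  · have := congrArg (eval 0) h
    simp [eval_finset_sum, sum_range_succ'] at this
  · have h1 := h (Complex.exp (2 * Real.pi * Complex.I / ((m + 1 : ℕ) : ℂ))) (by
      simp only [map_sum, map_pow, aeval_X]
      exact hz.geom_sum_eq_zero (by omega))
    rw [show (2 * Real.pi * Complex.I / ((m + 1 : ℕ) : ℂ))
      = ((2 * Real.pi / (m + 1) : ℝ) : ℂ) * Complex.I by push_cast; ring,
      Complex.exp_ofReal_mul_I_im] at h1
    have hm' : (2 : ℝ) ≤ m := by exact_mod_cast hm
    refine (Real.sin_pos_of_pos_of_lt_pi (by positivity) ?_).ne' h1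
    rw [div_lt_iff₀ (by positivity)]
    nlinarith [Real.pi_pos]

lemma key {i j : ℕ} (hj : 1 ≤ j) (h : j < i) : MS (P i) ≠ MS (P j) := by
  intro e
  have h1 : (fun k => if k = j + 1 then (1 : ℝ) else 0) ∈ MS (P j) := by
    intro n a _
    have : ∀ k ∈ range (n + 1), C (a k * if k = j + 1 then (1 : ℝ) else 0) * P j k
        = if k = j + 1 then C (a (j + 1)) * X ^ (j + 1) else 0 := by
      intro k _
      split_ifs with hk
      · subst hk; simp [P]
      · simp
    rw [sum_congr rfl this, sum_ite_eq']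
    split_ifs
    · exact rz_mono _ _
    · exact Or.inl rfl
  rw [← e] at h1
  have h2 := h1 (j + 1) (fun k => if k = j + 1 then 1 else if k = j then -1 else 0) (by
    have : ∑ k ∈ range (j + 1 + 1), C (if k = j + 1 then (1 : ℝ) else if k = j then -1 else 0)
        * P i k = C 1 * X ^ (j + 1) := by
      rw [sum_range_succ, sum_range_succ, sum_eq_zero (fun k hk => by
        have := mem_range.1 hk
        rw [if_neg (by omega), if_neg (by omega)]; simp)]
      rw [if_neg (by omega), if_pos rfl, if_pos rfl, P, P, if_pos h.le, if_pos (by omega),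
        sum_range_succ _ (j + 1)]
      simp
    rw [this]
    exact rz_mono _ _)
  refine not_rz (j + 1) (by omega) ?_
  rw [sum_range_succ, sum_eq_zero (fun k hk => by
    have := mem_range.1 hk
    simp only [if_neg (show k ≠ j + 1 by omega)]; simp)] at h2
  simpa [P, show j + 1 ≤ i by omega] using h2

theorem result : ∀ i j : ℕ, 1 ≤ i → 1 ≤ j → i ≠ j → MS (P i) ≠ MS (P j) := by
  intro i j hi hj hij
  rcases lt_or_gt_of_ne hij with h | h
  · exact (key hi h).symm
  · exact key hj h

end Pool.Agent.Results.MP_5f9057_an.Q2Yes
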